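import Mathlib
import Pool.Agent.X81.TruthTrees

/-!
# A material tautology that is not acceptable

Models: the worlds are `∅` and `{*}`, negation is evaluated at the complement and implication with
unions.  Every acceptable formula is true at `∅` in every such model (`TruthTrees.acc_valid`);
`(p ∧ ¬p) → q` is not.
-/

set_option autoImplicit false

namespace Pool.Agent.Results.MP_dcacc7_lc.NotTrivial

open Pool.Agent.X81.TruthTrees

/-- The acceptable formulas: the least set `A` that contains every formula that has a truth-tree
(with the recursive rule for the implications in `A`) all of whose branches crash with parity. -/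
def Acceptable : Set Fm := Acc ParityAt

/-- Truth under a valuation of the letters, when `→` is read materially. -/
def matTrue (v : ℕ → Prop) : Fm → Prop
  | Fm.atom n => v n
  | Fm.neg a => ¬ matTrue v a
  | Fm.and a b => matTrue v a ∧ matTrue v b
  | Fm.or a b => matTrue v a ∨ matTrue v b
  | Fm.imp a b => ¬ matTrue v a ∨ matTrue v b

/-- Material tautologies. -/
def Material (φ : Fm) : Prop := ∀ v : ℕ → Prop, matTrue v φ

/-- **The material tautology `(p ∧ ¬p) → q` is not acceptable**; also, a formula is acceptable
exactly when it has a tree with parity whose recursive steps use acceptable implications. -/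
theorem result :
    (∀ p q : ℕ, p ≠ q →
      Material (Fm.imp (Fm.and (Fm.atom p) (Fm.neg (Fm.atom p))) (Fm.atom q)) ∧
      Fm.imp (Fm.and (Fm.atom p) (Fm.neg (Fm.atom p))) (Fm.atom q) ∉ Acceptable) ∧
    (∀ φ, φ ∈ Acceptable ↔ ∃ t : TruthTree Acceptable φ, ∀ B ∈ t.branches, ParityAt B) := by
  refine ⟨fun p q hpq => ⟨?_, ?_⟩, acc_iff ParityAt⟩
  · intro v
    left
    rintro ⟨h1, h2⟩
    exact h2 h1
  · intro h
    have h1 := acc_valid (fun _ h => ParityAt.weak h) Unit h
    have h2 := h1 (fun n w => n = p ∧ w = ∅) (by
      rintro n w w' hw ⟨h3, h4⟩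
      subst h4
      exact ⟨h3, Set.subset_empty_iff.1 hw⟩)
    have h3 := h2 ∅ ⟨⟨rfl, rfl⟩, ?_⟩
    · exact hpq h3.1.symm
    · show ¬ (p = p ∧ (∅ : Set Unit)ᶜ = ∅)
      rintro ⟨_, h4⟩
      rw [Set.compl_empty] at h4
      have : () ∈ (∅ : Set Unit) := h4 ▸ trivial
      exact this

end Pool.Agent.Results.MP_dcacc7_lc.NotTrivial
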